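import Mathlib
import Pool.Agent.TH891.AL.L8

/-!
Quantitative Hypothesis H for linear polynomials: unconditional lower bounds with the conjectured constants on average
over *arbitrary* families of linear polynomials with small coefficients.

* For every set `V` of at least `lam * log N` linear polynomials with coefficients at most `(log N) ^ C` (`lam > k`), the
  sum of the counts over the `(k + 1)`-subsets of `V` is at least `∏ (1 - i / lam)` times the prediction.
* For an array `f(a_1, ..., a_s)` of linear polynomials (injective in each variable, otherwise arbitrary) the same holds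
  for the sum over the systems `{ f(x_1(i_1), ..., x_s(i_s)) : i_j < m_j }` attached to the boxes of the array.
-/

namespace Pool.Agent.Results.MP_51e72e_nt.ArraysOfLinearPolynomials

open Finset Polynomial Pool.Agent.H362R2.R1 Pool.Agent.TH891.AL

open Classical in
theorem result :
    -- the constants are convergent products, positive if there is no fixed prime divisor
    (∀ F : Finset ℤ[X], (∀ f ∈ F, f.natDegree = 1 ∧ 0 < f.leadingCoeff ∧ Irreducible f) →
      HasProd (fun p : Nat.Primes => (1 - (omega F p : ℝ) / (p : ℕ)) / (1 - 1 / ((p : ℕ) : ℝ)) ^ F.card) (CF F) ∧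
      ((∀ p : ℕ, p.Prime → omega F p < p) → 0 < CF F)) ∧
    -- all subsets of a set of linear polynomials
    (∀ (k q : ℕ) (lam θ C : ℝ), 1 ≤ q → (k : ℝ) < lam → 0 < θ → θ < ∏ i ∈ range k, (1 - (i + 1 : ℝ) / lam) →
      ∃ N₀ : ℕ, ∀ N : ℕ, N₀ ≤ N → ∀ V : Finset ℤ[X],
        (∀ f ∈ V, (f.natDegree = 1 ∧ 0 < f.leadingCoeff ∧ Irreducible f) ∧
          ∀ i, |((f.coeff i : ℤ) : ℝ)| ≤ Real.log N ^ C) →
        lam * dens q V * Real.log N ≤ V.card →
        θ * (∑ F ∈ V.powersetCard (k + 1), CF F) * (∫ t in (2:ℝ)..N, 1 / Real.log t ^ (k + 1)) ≤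
          ∑ F ∈ V.powersetCard (k + 1), (primeCount F N : ℝ)) ∧
    -- the boxes of an array of linear polynomials
    (∀ (s : ℕ) (m : Fin s → ℕ) (M q : ℕ) (lam θ C : ℝ), (∀ j, 1 ≤ m j) → ∏ j, m j = M → 1 ≤ q → 0 < lam → 0 < θ →
      θ < 1 - (M : ℝ) * (M - 1) / (2 * lam) →
      ∃ N₀ : ℕ, ∀ N : ℕ, N₀ ≤ N → ∀ (α : Fin s → Type) (A : ∀ j, Finset (α j)) (f : (∀ j, α j) → ℤ[X]),
        (∀ a, (∀ j, a j ∈ A j) → ((f a).natDegree = 1 ∧ 0 < (f a).leadingCoeff ∧ Irreducible (f a)) ∧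
          ∀ i, |(((f a).coeff i : ℤ) : ℝ)| ≤ Real.log N ^ C) →
        (∀ j, ∀ a a' : ∀ j, α j, (∀ i, a i ∈ A i) → (∀ i, a' i ∈ A i) → (∀ i, i ≠ j → a i = a' i) →
          f a = f a' → a = a') →
        (∀ j, lam * (dens q (entries A f) * Real.log N) ^ (M / m j) ≤ (A j).card) →
        θ * (∑ x ∈ boxes m A f, CF (sys m f x)) * (∫ t in (2:ℝ)..N, 1 / Real.log t ^ M) ≤
          ∑ x ∈ boxes m A f, (primeCount (sys m f x) N : ℝ) ∧
        θ * ((1 / dens q (entries A f)) ^ (M - 1) * ∏ j, ((A j).card : ℝ) ^ m j) *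
          (∫ t in (2:ℝ)..N, 1 / Real.log t ^ M) ≤
          ∑ x ∈ boxes m A f, (primeCount (sys m f x) N : ℝ)) := by
  refine ⟨fun F hF => ⟨CF_hasProd F hF, fun h => CF_pos F hF h⟩, ?_, ?_⟩
  · intro k q lam θ C hq hlam hθ0 hθ
    exact poly_universal k q lam θ C hq hlam hθ0 hθ
  · intro s m M q lam θ C hm hM hq hlam hθ0 hθ
    have hE : ∀ j₀, ∏ j : {j // j ≠ j₀}, m j = M / m j₀ := by
      intro j₀
      have h := Fintype.prod_eq_mul_prod_subtype_ne (fun j => m j) j₀
      rw [← hM, h, Nat.mul_div_cancel_left _ (lt_of_lt_of_le Nat.zero_lt_one (hm j₀))]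
    subst hM
    obtain ⟨N₀, h⟩ := poly_arrays m hm hlam hθ0 hθ C q hq
    exact ⟨N₀, fun N hN α A f h1 h2 h3 => h N hN α A f h1 h2 (fun j₀ => by rw [hE j₀]; exact h3 j₀)⟩

end Pool.Agent.Results.MP_51e72e_nt.ArraysOfLinearPolynomials
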