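import Pool.Agent.TH892.FullBox4

/-!
The Bateman-Horn asymptotic formula for 100 percent of all integer polynomials of degree `j` and
height at most `H` without fixed prime divisor, simultaneously for all lengths
`H^ε ≤ K ≤ H / (log H)^B`.
-/

set_option autoImplicit false

namespace Pool.Agent.Results.MP_51e72e_nt.FullHeightBox

open Finset Polynomial Filter

/-- the polynomial with the coefficients `c 0, ..., c j` -/
noncomputable def pol {j : ℕ} (c : Fin (j + 1) → ℤ) : ℤ[X] :=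
  ∑ i : Fin (j + 1), C (c i) * X ^ (i : ℕ)

/-- all coefficient vectors with `|c i| ≤ H` for all `i` and `c j ≥ 1`, that is, all polynomials of
degree `j` and height at most `H` with positive leading coefficient -/
noncomputable def box (j H : ℕ) : Finset (Fin (j + 1) → ℤ) :=
  Fintype.piFinset (fun i => if (i : ℕ) = j then Icc 1 (H : ℤ) else Icc (-(H : ℤ)) H)

/-- `ω_f(p)`: the number of residue classes modulo `p` in which `f` vanishes modulo `p` -/
noncomputable def omega (f : ℤ[X]) (p : ℕ) : ℕ :=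
  ((range p).filter (fun k : ℕ => (p : ℤ) ∣ f.eval (k : ℤ))).card

/-- the Euler product `∏_{p ≤ z} (1 - ω_f(p) / p) / (1 - 1 / p)` -/
noncomputable def eulerProd (z : ℕ) (f : ℤ[X]) : ℝ :=
  ∏ p ∈ (Icc 1 z).filter Nat.Prime, (1 - (omega f p : ℝ) / p) / (1 - 1 / (p : ℝ))

/-- the number of `n` with `1 ≤ n ≤ K` and `|f(n)|` prime -/
noncomputable def absPrimeCount (f : ℤ[X]) (K : ℕ) : ℝ :=
  (((Icc 1 K).filter (fun n : ℕ => (f.eval (n : ℤ)).natAbs.Prime)).card : ℝ)

/-- `∑ 1 / log |f(n)|` over `1 ≤ n ≤ K` with `|f(n)| ≥ 2` -/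
noncomputable def absLogSum (f : ℤ[X]) (K : ℕ) : ℝ :=
  ∑ n ∈ (Icc 1 K).filter (fun n : ℕ => 2 ≤ |f.eval (n : ℤ)|),
    1 / Real.log |((f.eval (n : ℤ) : ℤ) : ℝ)|

open Classical in
/-- **The quantitative Hypothesis H for one polynomial holds with probability one, for arguments
nearly up to the height.** Let `j ≥ 1`, `ε > 0` and `U` be given, let `E` be large in terms of
these, let `B` and `H` be large in terms of these and `E`, and put `z = ⌊(log H)^E⌋`.
(1) For every `K` with `H^ε ≤ K ≤ H / (log H)^B` the mean value of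
`|#{n ≤ K : |f(n)| prime} - eulerProd z f * ∑ 1 / log |f(n)||` over all polynomials `f` of degree
`j` and height at most `H` with positive leading coefficient is at most `K / (log H)^U`.
(2) All these `f` with at most `(number of these f) / (log H)^U` exceptions either have a fixed
prime divisor `p ≤ z` or satisfy, for ALL `K` with `H^ε ≤ K ≤ H / (log H)^B` simultaneously,
`#{n ≤ K : |f(n)| prime} = (1 + θ (log H)^(-U)) eulerProd z f ∑ 1 / log |f(n)|`, `|θ| ≤ 1`. -/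
theorem result (j : ℕ) (hj : 1 ≤ j) (ε : ℝ) (hε : 0 < ε) (U : ℕ) : ∃ E' : ℕ,
    ∀ E : ℕ, E' ≤ E → ∃ B H0 : ℕ, ∀ H : ℕ, H0 ≤ H →
    (∀ K : ℕ, (H : ℝ) ^ ε ≤ K → (K : ℝ) * Real.log H ^ B ≤ H →
      ∑ c ∈ box j H, |absPrimeCount (pol c) K -
        eulerProd ⌊Real.log H ^ E⌋₊ (pol c) * absLogSum (pol c) K| ≤
      ((box j H).card : ℝ) * K / Real.log H ^ U) ∧
    (((box j H).filter (fun c : Fin (j + 1) → ℤ =>
      (∀ p : ℕ, p.Prime → p ≤ ⌊Real.log H ^ E⌋₊ → ∃ n : ℤ, ¬ (p : ℤ) ∣ (pol c).eval n) ∧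
      ∃ K : ℕ, (H : ℝ) ^ ε ≤ K ∧ (K : ℝ) * Real.log H ^ B ≤ H ∧
        eulerProd ⌊Real.log H ^ E⌋₊ (pol c) * absLogSum (pol c) K / Real.log H ^ U <
        |absPrimeCount (pol c) K -
          eulerProd ⌊Real.log H ^ E⌋₊ (pol c) * absLogSum (pol c) K|)).card : ℝ) ≤
      ((box j H).card : ℝ) / Real.log H ^ U := by
  obtain ⟨E1, h1⟩ := Pool.Agent.TH892.mean_box j hj ε hε U
  obtain ⟨E2, h2⟩ := Pool.Agent.TH892.exc_box j hj ε hε U
  refine ⟨max E1 E2, fun E hE => ?_⟩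
  obtain ⟨B1, H1, hb1⟩ := h1 E ((le_max_left _ _).trans hE)
  obtain ⟨B2, H2, hb2⟩ := h2 E ((le_max_right _ _).trans hE)
  obtain ⟨H3, hH3⟩ := eventually_atTop.mp (Pool.Agent.H442R2.EHI.evt_log_ge 1)
  refine ⟨max B1 B2, max (max H1 H2) H3, fun H hH => ?_⟩
  have hL1 : 1 ≤ Real.log H := hH3 H ((le_max_right _ _).trans hH)
  have hHH1 : H1 ≤ H := (le_max_left _ _).trans ((le_max_left _ _).trans hH)
  have hHH2 : H2 ≤ H := (le_max_right _ _).trans ((le_max_left _ _).trans hH)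
  have hmon : ∀ B' : ℕ, B' ≤ max B1 B2 → ∀ K : ℕ, (K : ℝ) * Real.log H ^ (max B1 B2) ≤ H →
      (K : ℝ) * Real.log H ^ B' ≤ H := by
    intro B' hB' K hK
    refine le_trans ?_ hK
    exact mul_le_mul_of_nonneg_left (pow_le_pow_right₀ hL1 hB') (Nat.cast_nonneg _)
  constructor
  · intro K hK1 hK2
    exact hb1 H hHH1 K hK1 (hmon B1 (le_max_left _ _) K hK2)
  · refine hb2 H hHH2 _ ?_
    rintro c hc ⟨hnf, K, hK1, hK2, hK3⟩
    refine ⟨fun p hp hpz => (Pool.Agent.H300R2.BH.rho_ne_iff _ p hp).mpr (hnf p hp hpz),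
      K, hK1, hmon B2 (le_max_right _ _) K hK2, hK3⟩

end Pool.Agent.Results.MP_51e72e_nt.FullHeightBox
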