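import Pool.Agent.TH892.OP.C13

/-!
Primes `F(m) + k` near the real zero of `F + k` on the scale `log X`, which is the true one, for
every integer polynomial `F` of degree `d ≥ 2` (for instance `F = x³`) and for all but `ε X` of the
integers `|k| ≤ X`: no prime `F(m) + k` is below `c X^(1 - 1/d) log X`, and in ALL windows
`a < m ≤ b` of length at least `T log X` on which the values are at most `κ (b - a) X^(1 - 1/d)`
the number of primes is the one predicted by Bateman and Horn up to a relative error `ε`.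

Method: the second moment over all shifts of the primes minus their sieve model, summed over the
values `F(m) + k ≤ Y`, is `O(X^(1/d) Y / log Y)` for all `Y` from `X^(1 - 1/d)` on (only the
diagonal is left: an inverse theorem for Weyl sums, `Pool/Agent/TH204/WR`); the second moment of
the difference of two sieve models of levels `(log X)^E` and `(log X)^(1/u)` is estimated by the
fundamental lemma, the number of zeros of `F(n + δ) - F(n)` modulo primes and the large sieve on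
the diagonal; a geometric grid of heights `Y` from `T X^(1 - 1/d) log X` on then costs only a
geometric series, and monotonicity gives all windows.
-/

set_option autoImplicit false

namespace Pool.Agent.Results.MP_51e72e_nt.OptimalScale

open Finset Filter Topology
open Polynomial (X)
open scoped Polynomial

/-- the number of residues `a` modulo `p` such that `p` divides `F(a) + k` -/
def rho (F : ℤ[X]) (k : ℤ) (p : ℕ) : ℕ := #((range p).filter (fun a : ℕ => (p : ℤ) ∣ F.eval (a : ℤ) + k))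

/-- the product of `(p - rho(p)) / (p - 1)` over the primes `p ≤ z` -/
noncomputable def S (F : ℤ[X]) (k : ℤ) (z : ℕ) : ℝ :=
  ∏ p ∈ (range (z + 1)).filter Nat.Prime, ((p : ℝ) - rho F k p) / ((p : ℝ) - 1)

/-- the number of integers `m` with `a < m ≤ b` such that `F(m) + k` is a prime -/
noncomputable def P (F : ℤ[X]) (k a b : ℤ) : ℕ := #((Ioc a b).filter (fun m : ℤ => Nat.Prime (F.eval m + k).toNat))

/-- the sum of `1 / log (F(m) + k)` over the integers `m` with `a < m ≤ b` -/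
noncomputable def M (F : ℤ[X]) (k a b : ℤ) : ℝ := ∑ m ∈ Ioc a b, 1 / Real.log ((F.eval m + k : ℤ) : ℝ)

lemma rho_eq (F : ℤ[X]) (k : ℤ) (p : ℕ) : rho F k p = Pool.Agent.TH204.WR.rho F k p := rfl

lemma rho_lt (F : ℤ[X]) (k : ℤ) (p : ℕ) (hp : p.Prime) (h : ∃ m : ℤ, ¬ (p : ℤ) ∣ F.eval m + k) :
    Pool.Agent.TH204.WR.rho F k p < p := by
  obtain ⟨m, hm⟩ := h
  have hp0 : (0 : ℤ) < p := by exact_mod_cast hp.pos
  unfold Pool.Agent.TH204.WR.rho
  have hlt : (m % p).toNat < p := by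
    have h1 := Int.emod_nonneg m hp0.ne'
    have h2 := Int.emod_lt_of_pos m hp0
    omega
  have hcast : (((m % p).toNat : ℕ) : ℤ) = m % p := Int.toNat_of_nonneg (Int.emod_nonneg m hp0.ne')
  have hss : (range p).filter (fun a : ℕ => (p : ℤ) ∣ F.eval (a : ℤ) + k) ⊂ range p := by
    rw [filter_ssubset]
    refine ⟨(m % p).toNat, mem_range.2 hlt, ?_⟩
    intro hd
    rw [hcast] at hd
    apply hm
    have h1 : (p : ℤ) ∣ m - m % p := Int.dvd_self_sub_emod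
    have h2 : (m - m % p) ∣ F.eval m - F.eval (m % p) := Polynomial.sub_dvd_eval_sub m (m % p) F
    have h3 := dvd_add (h1.trans h2) hd
    have e : F.eval m - F.eval (m % p) + (F.eval (m % p) + k) = F.eval m + k := by ring
    rwa [e] at h3
  have := card_lt_card hss
  rwa [card_range] at this

lemma S_eq (F : ℤ[X]) (k : ℤ) (z : ℕ) : S F k z = Pool.Agent.TH204.WR.hh F k z := by
  unfold S Pool.Agent.TH204.WR.hh Pool.Agent.H373R2.T7.Vz
  rw [← prod_inv_distrib, ← prod_mul_distrib]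
  have hs : (range (z + 1)).filter Nat.Prime = Pool.Agent.H373R2.T7.pz z := by
    ext p
    unfold Pool.Agent.H373R2.T7.pz
    rw [mem_filter, mem_filter, mem_range, mem_Icc]
    constructor
    · rintro ⟨h1, h2⟩
      exact ⟨⟨h2.one_le, by omega⟩, h2⟩
    · rintro ⟨⟨h1, h3⟩, h2⟩
      exact ⟨by omega, h2⟩
  rw [hs]
  apply prod_congr rfl
  intro p hp
  unfold Pool.Agent.H373R2.T7.pz at hp
  have hp2 := (mem_filter.1 hp).2.two_le
  have hpr : (2 : ℝ) ≤ p := by exact_mod_cast hp2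
  have h1 : (p : ℝ) ≠ 0 := by linarith
  have h2 : (p : ℝ) - 1 ≠ 0 := by linarith
  have h3 : (1 : ℝ) - 1 / p ≠ 0 := by
    rw [one_sub_div h1]
    exact div_ne_zero h2 h1
  rw [rho_eq]
  field_simp

lemma rt_eq (k x : ℕ) (d : ℕ) (hd : d = k + 1) :
    Pool.Agent.TH204.WR.rt k x ^ k = (x : ℝ) ^ (1 - 1 / (d : ℝ)) := by
  unfold Pool.Agent.TH204.WR.rt
  rw [← Real.rpow_natCast, ← Real.rpow_mul (Nat.cast_nonneg _)]
  congr 1
  rw [hd]
  push_cast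
  have : (k : ℝ) + 1 ≠ 0 := by positivity
  field_simp
  ring


/-- the windows -/
theorem windows (F : ℤ[X]) (hF : 2 ≤ F.natDegree) (κ ε : ℝ) (hκ : 0 < κ) (hε : 0 < ε) :
    ∃ T : ℝ, 0 < T ∧ ∃ B X₀ : ℕ, ∀ N : ℕ, X₀ ≤ N →
    ∃ Bad ⊆ Icc (-(N : ℤ)) N, (#Bad : ℝ) ≤ ε * N ∧
    ∀ k ∈ Icc (-(N : ℤ)) N, k ∉ Bad → (∀ p : ℕ, p.Prime → ∃ m : ℤ, ¬ (p : ℤ) ∣ F.eval m + k) →
    ∀ z : ℕ, Real.log N ^ B ≤ z → z ^ 3 ≤ N → 0 < S F k z ∧
    ∀ a b : ℤ, a < b → T * Real.log N ≤ (b : ℝ) - a → (∀ m ∈ Ioc a b, 2 ≤ F.eval m + k ∧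
        ((F.eval m + k : ℤ) : ℝ) ≤ κ * ((b : ℝ) - a) * (N : ℝ) ^ (1 - 1 / (F.natDegree : ℝ))) →
      |(P F k a b : ℝ) - S F k z * M F k a b| ≤ ε * (S F k z * M F k a b) := by
  obtain ⟨d, hd⟩ : ∃ d, F.natDegree = d + 1 := ⟨F.natDegree - 1, by omega⟩
  obtain ⟨T, hT, B, X₀, h0⟩ := Pool.Agent.TH892.OP.all_win d (by omega) F hd κ ε hκ hε
  refine ⟨T, hT, B, X₀, fun N hN => ?_⟩
  obtain ⟨Bad, hB1, hB2, hB3⟩ := h0 N hN
  refine ⟨Bad, hB1, hB2, fun k hk hkB hadm z hz hz3 => ?_⟩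
  obtain ⟨h1, h2⟩ := hB3 k hk hkB (fun p hp => rho_lt F k p hp (hadm p hp)) z hz hz3
  rw [S_eq]
  refine ⟨h1, fun a b hab hTL hv => ?_⟩
  have hP : P F k a b = #((Ioc a b).filter (fun m => (F.eval m + k).natAbs.Prime)) := by
    unfold P
    congr 1
    apply filter_congr
    intro m hm
    have h3 := (hv m hm).1
    have h4 : (F.eval m + k).toNat = (F.eval m + k).natAbs := by omega
    rw [h4]
  have hM : M F k a b = ∑ m ∈ Ioc a b, Pool.Agent.TH892.SW.wt (F.eval m + k).natAbs := by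
    unfold M Pool.Agent.TH892.SW.wt
    apply sum_congr rfl
    intro m hm
    have h3 := (hv m hm).1
    have h4 : (((F.eval m + k).natAbs : ℕ) : ℤ) = F.eval m + k := by omega
    have h5 : (((F.eval m + k).natAbs : ℕ) : ℝ) = ((F.eval m + k : ℤ) : ℝ) := by
      rw [← h4]
      simp
    rw [h5]
  rw [hP, hM]
  apply h2 a b hab hTL
  intro m hm
  refine ⟨(hv m hm).1, ?_⟩
  have h3 := (hv m hm).2
  rw [rt_eq d N F.natDegree hd, ← mul_assoc]
  exact h3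

/-- everything together -/
theorem main (F : ℤ[X]) (hF : 2 ≤ F.natDegree) (κ ε : ℝ) (hκ : 0 < κ) (hε : 0 < ε) :
    ∃ c C T : ℝ, 0 < c ∧ 0 < C ∧ 0 < T ∧ ∃ B X₀ : ℕ, ∀ N : ℕ, X₀ ≤ N →
    ∃ Bad ⊆ Icc (-(N : ℤ)) N, (#Bad : ℝ) ≤ ε * N ∧ ∀ k ∈ Icc (-(N : ℤ)) N, k ∉ Bad →
      (∀ (m : ℤ) (p : ℕ), p.Prime → (p : ℤ) = F.eval m + k → c * (N : ℝ) ^ (1 - 1 / (F.natDegree : ℝ)) * Real.log N < p) ∧
      ((∀ p : ℕ, p.Prime → ∃ m : ℤ, ¬ (p : ℤ) ∣ F.eval m + k) →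
        ((∃ m : ℤ, F.eval m + k < 0) → (∃ m : ℤ, 0 < F.eval m + k) → ∃ (m : ℤ) (p : ℕ), p.Prime ∧
          (p : ℤ) = F.eval m + k ∧ (p : ℝ) ≤ C * (N : ℝ) ^ (1 - 1 / (F.natDegree : ℝ)) * Real.log N) ∧
        ∀ z : ℕ, Real.log N ^ B ≤ z → z ^ 3 ≤ N → 0 < S F k z ∧
        ∀ a b : ℤ, a < b → T * Real.log N ≤ (b : ℝ) - a → (∀ m ∈ Ioc a b, 2 ≤ F.eval m + k ∧
            ((F.eval m + k : ℤ) : ℝ) ≤ κ * ((b : ℝ) - a) * (N : ℝ) ^ (1 - 1 / (F.natDegree : ℝ))) →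
          |(P F k a b : ℝ) - S F k z * M F k a b| ≤ ε * (S F k z * M F k a b)) := by
  classical
  obtain ⟨d, hd⟩ : ∃ d, F.natDegree = d + 1 := ⟨F.natDegree - 1, by omega⟩
  obtain ⟨ε', hε'⟩ : ∃ ε', ε' = ε / 3 := ⟨_, rfl⟩
  have hε'0 : 0 < ε' := by rw [hε']; positivity
  obtain ⟨c, hc⟩ : ∃ c : ℝ, c = ε / 3300 := ⟨_, rfl⟩
  have hc0 : 0 < c := by rw [hc]; positivity
  obtain ⟨T, hT, B, X1, h1⟩ := windows F hF κ ε' hκ hε'0
  obtain ⟨X2, h2⟩ := Pool.Agent.TH892.OP.few_small d (by omega) F hd c hc0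
  obtain ⟨C, hC, X3, h3⟩ := Pool.Agent.TH892.OP.least_gen d (by omega) F hd ε' hε'0
  refine ⟨c, C, T, hc0, hC, hT, B, max X1 (max X2 X3), fun N hN => ?_⟩
  obtain ⟨B1, hB1, hB1c, hB1w⟩ := h1 N ((le_max_left _ _).trans hN)
  obtain ⟨B2, hB2, hB2c, hB2w⟩ := h2 N (le_trans (le_trans (le_max_left _ _) (le_max_right _ _)) hN)
  obtain ⟨B3, hB3, hB3c, hB3w⟩ := h3 N (le_trans (le_trans (le_max_right _ _) (le_max_right _ _)) hN)
  have hN0 : (0 : ℝ) ≤ N := Nat.cast_nonneg _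
  have hrt := rt_eq d N F.natDegree hd
  refine ⟨B1 ∪ (B2 ∪ B3), union_subset hB1 (union_subset hB2 hB3), ?_, fun k hk hkB => ?_⟩
  · have u1 := card_union_le B1 (B2 ∪ B3)
    have u2 := card_union_le B2 B3
    have u3 : (#(B1 ∪ (B2 ∪ B3)) : ℝ) ≤ #B1 + #B2 + #B3 := by
      exact_mod_cast (by omega : #(B1 ∪ (B2 ∪ B3)) ≤ #B1 + #B2 + #B3)
    rw [hε'] at hB1c hB3c
    rw [hc] at hB2c
    have e : 1100 * (ε / 3300) * (N : ℝ) = ε / 3 * N := by ring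
    rw [e] at hB2c
    linarith
  · rw [mem_union, mem_union, not_or, not_or] at hkB
    obtain ⟨k1, k2, k3⟩ := hkB
    refine ⟨fun m p hp hpm => ?_, fun hadm => ⟨fun hneg hpos => ?_, fun z hz hz3 => ?_⟩⟩
    · have h4 := hB2w k hk k2 m (by rw [← hpm, Int.toNat_natCast]; exact hp)
      rw [← hpm, hrt] at h4
      calc c * (N : ℝ) ^ (1 - 1 / (F.natDegree : ℝ)) * Real.log N = c * ((N : ℝ) ^ (1 - 1 / (F.natDegree : ℝ)) * Real.log N) := by ring
        _ < (((p : ℕ) : ℤ) : ℝ) := h4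
        _ = p := by simp
    · obtain ⟨m, hm1, hm2⟩ := hB3w k hk k3 (fun p hp => rho_lt F k p hp (hadm p hp)) hneg hpos
      have h2 := hm1.two_le
      have hcast : (((F.eval m + k).toNat : ℕ) : ℤ) = F.eval m + k := Int.toNat_of_nonneg (by omega)
      refine ⟨m, (F.eval m + k).toNat, hm1, hcast, ?_⟩
      have h5 : (((F.eval m + k).toNat : ℕ) : ℝ) = ((F.eval m + k : ℤ) : ℝ) := by exact_mod_cast hcast
      rw [h5]
      rw [hrt] at hm2
      refine hm2.trans (le_of_eq ?_)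
      ring
    · obtain ⟨h4, h5⟩ := hB1w k hk k1 hadm z hz hz3
      refine ⟨h4, fun a b hab hTL hv => ?_⟩
      refine (h5 a b hab hTL hv).trans ?_
      apply mul_le_mul_of_nonneg_right (by rw [hε']; linarith)
      apply mul_nonneg h4.le
      unfold M
      apply sum_nonneg
      intro m hm
      have h6 := (hv m hm).1
      have h7 : (2 : ℝ) ≤ ((F.eval m + k : ℤ) : ℝ) := by exact_mod_cast h6
      exact one_div_nonneg.2 (Real.log_nonneg (by linarith))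

/-- no local obstruction for cubes -/
lemma cube_adm (k : ℤ) (p : ℕ) (hp : p.Prime) : ∃ m : ℤ, ¬ (p : ℤ) ∣ (X ^ 3 : ℤ[X]).eval m + k := by
  by_cases h : (p : ℤ) ∣ k
  · refine ⟨1, fun hc => ?_⟩
    rw [Polynomial.eval_pow, Polynomial.eval_X, one_pow] at hc
    have h1 : (p : ℤ) ∣ 1 := by
      have := dvd_sub hc h
      rwa [add_sub_cancel_right] at this
    have h2 : (p : ℤ) = 1 := by
      have := Int.le_of_dvd (by norm_num) h1
      have := hp.two_le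
      omega
    have := hp.two_le
    omega
  · refine ⟨0, fun hc => h ?_⟩
    rw [Polynomial.eval_pow, Polynomial.eval_X] at hc
    simpa using hc


/-- the least prime `m³ + k` -/
theorem least (ε : ℝ) (hε : 0 < ε) : ∃ c C : ℝ, 0 < c ∧ 0 < C ∧ ∃ X₀ : ℕ, ∀ N : ℕ, X₀ ≤ N →
    ∃ Bad ⊆ Icc (-(N : ℤ)) N, (#Bad : ℝ) ≤ ε * N ∧ ∀ k ∈ Icc (-(N : ℤ)) N, k ∉ Bad →
      (∀ (m : ℤ) (p : ℕ), p.Prime → (p : ℤ) = m ^ 3 + k → c * (N : ℝ) ^ ((2 : ℝ) / 3) * Real.log N < p) ∧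
      ∃ (m : ℤ) (p : ℕ), p.Prime ∧ (p : ℤ) = m ^ 3 + k ∧ (p : ℝ) ≤ C * (N : ℝ) ^ ((2 : ℝ) / 3) * Real.log N := by
  have hdeg : (X ^ 3 : ℤ[X]).natDegree = 3 := by rw [Polynomial.natDegree_X_pow]
  have hevl : ∀ m : ℤ, (X ^ 3 : ℤ[X]).eval m = m ^ 3 := by
    intro m
    rw [Polynomial.eval_pow, Polynomial.eval_X]
  obtain ⟨c, C, T, hc, hC, hT, B, X₀, h0⟩ := main (X ^ 3) (by rw [hdeg]; norm_num) 1 ε one_pos hε
  have hexp : (1 : ℝ) - 1 / (((X ^ 3 : ℤ[X]).natDegree : ℕ) : ℝ) = 2 / 3 := by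
    rw [hdeg]
    norm_num
  refine ⟨c, C, hc, hC, X₀, fun N hN => ?_⟩
  obtain ⟨Bad, hB1, hB2, hB3⟩ := h0 N hN
  refine ⟨Bad, hB1, hB2, fun k hk hkB => ?_⟩
  obtain ⟨h1, h2⟩ := hB3 k hk hkB
  obtain ⟨h3, -⟩ := h2 (cube_adm k)
  rw [hexp] at h1 h3
  constructor
  · intro m p hp hpm
    exact h1 m p hp (by rw [hevl]; exact hpm)
  · rw [mem_Icc] at hk
    obtain ⟨m, p, hp, hpm, hple⟩ := h3 ⟨-(N : ℤ) - 1, by
      rw [hevl]
      have h4 : (0 : ℤ) ≤ N := Int.natCast_nonneg _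
      have h5 : (-(N : ℤ) - 1) ^ 3 = -((N : ℤ) + 1) ^ 3 := by ring
      have h6 : (N : ℤ) + 1 ≤ ((N : ℤ) + 1) ^ 3 := le_self_pow₀ (by linarith) (by norm_num)
      rw [h5]
      linarith [hk.2]⟩ ⟨(N : ℤ) + 1, by
      rw [hevl]
      have h4 : (0 : ℤ) ≤ N := Int.natCast_nonneg _
      have h6 : (N : ℤ) + 1 ≤ ((N : ℤ) + 1) ^ 3 := le_self_pow₀ (by linarith) (by norm_num)
      linarith [hk.1]⟩
    rw [hevl] at hpm
    exact ⟨m, p, hp, hpm, hple⟩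

/-- **Primes `F(m) + k` on the optimal scale for almost all `k`.** For every integer polynomial `F`
of degree `d ≥ 2` and all `κ, ε > 0` there are `c, C, T > 0`, `B` and `X₀` such that for all
`N ≥ X₀` all but at most `ε N` of the integers `|k| ≤ N` have the following properties.
* Every prime of the form `F(m) + k` is larger than `c N^(1 - 1/d) log N`.
If moreover `F + k` has no local obstruction, then
* if `F + k` takes negative and positive values (always, if `d` is odd), there is a prime of the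
  form `F(m) + k` which is at most `C N^(1 - 1/d) log N`;
* for all `z` with `(log N)^B ≤ z ≤ N^(1/3)` the product `S(z)` of `(p - rho(p)) / (p - 1)` over
  `p ≤ z` is positive, and for ALL windows `a < m ≤ b` with `b - a ≥ T log N` on which
  `2 ≤ F(m) + k ≤ κ (b - a) N^(1 - 1/d)` the number of `m` with `F(m) + k` prime is
  `S(z) ∑ 1 / log (F(m) + k)` up to a relative error `ε`.

In particular (`F = x³`, where there is no local obstruction) the least prime of the form `m³ + k`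
lies between `c N^(2/3) log N` and `C N^(2/3) log N` for all but at most `ε N` of the integers
`|k| ≤ N`. -/
theorem result :
    (∀ F : ℤ[X], 2 ≤ F.natDegree → ∀ κ ε : ℝ, 0 < κ → 0 < ε →
      ∃ c C T : ℝ, 0 < c ∧ 0 < C ∧ 0 < T ∧ ∃ B X₀ : ℕ, ∀ N : ℕ, X₀ ≤ N →
      ∃ Bad ⊆ Icc (-(N : ℤ)) N, (#Bad : ℝ) ≤ ε * N ∧ ∀ k ∈ Icc (-(N : ℤ)) N, k ∉ Bad →
        (∀ (m : ℤ) (p : ℕ), p.Prime → (p : ℤ) = F.eval m + k →
          c * (N : ℝ) ^ (1 - 1 / (F.natDegree : ℝ)) * Real.log N < p) ∧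
        ((∀ p : ℕ, p.Prime → ∃ m : ℤ, ¬ (p : ℤ) ∣ F.eval m + k) →
          ((∃ m : ℤ, F.eval m + k < 0) → (∃ m : ℤ, 0 < F.eval m + k) → ∃ (m : ℤ) (p : ℕ), p.Prime ∧
            (p : ℤ) = F.eval m + k ∧ (p : ℝ) ≤ C * (N : ℝ) ^ (1 - 1 / (F.natDegree : ℝ)) * Real.log N) ∧
          ∀ z : ℕ, Real.log N ^ B ≤ z → z ^ 3 ≤ N → 0 < S F k z ∧
          ∀ a b : ℤ, a < b → T * Real.log N ≤ (b : ℝ) - a → (∀ m ∈ Ioc a b, 2 ≤ F.eval m + k ∧
              ((F.eval m + k : ℤ) : ℝ) ≤ κ * ((b : ℝ) - a) * (N : ℝ) ^ (1 - 1 / (F.natDegree : ℝ))) →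
            |(P F k a b : ℝ) - S F k z * M F k a b| ≤ ε * (S F k z * M F k a b))) ∧
    (∀ ε : ℝ, 0 < ε → ∃ c C : ℝ, 0 < c ∧ 0 < C ∧ ∃ X₀ : ℕ, ∀ N : ℕ, X₀ ≤ N →
      ∃ Bad ⊆ Icc (-(N : ℤ)) N, (#Bad : ℝ) ≤ ε * N ∧ ∀ k ∈ Icc (-(N : ℤ)) N, k ∉ Bad →
        (∀ (m : ℤ) (p : ℕ), p.Prime → (p : ℤ) = m ^ 3 + k → c * (N : ℝ) ^ ((2 : ℝ) / 3) * Real.log N < p) ∧
        ∃ (m : ℤ) (p : ℕ), p.Prime ∧ (p : ℤ) = m ^ 3 + k ∧ (p : ℝ) ≤ C * (N : ℝ) ^ ((2 : ℝ) / 3) * Real.log N) :=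
  ⟨fun F hF κ ε hκ hε => main F hF κ ε hκ hε, least⟩

end Pool.Agent.Results.MP_51e72e_nt.OptimalScale
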