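import Pool.Agent.TH935.TF9

/-!
# The quantitative Hypothesis H for systems of linear polynomials with constant terms in thin families
-/

set_option autoImplicit false

namespace Pool.Agent.Results.MP_51e72e_nt.ThinFamilySystems

open Finset Filter Topology

/-- `ω_F(p)` for the set `F` of the polynomials `f_i(x) = α i x + β i`: the number of residue classes of
`n` modulo `p` with `f_1(n) ⋯ f_k(n) ≡ 0 (mod p)`. -/
def omega {k : ℕ} (α β : Fin k → ℤ) (p : ℕ) : ℕ :=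
  ((range p).filter (fun n : ℕ => (p : ℤ) ∣ ∏ i, (α i * (n : ℤ) + β i))).card

/-- The product over the primes `p ≤ z` of the factors `(1 - ω_F(p) / p) / (1 - 1 / p) ^ k` of `C_F`. -/
noncomputable def eulerProd {k : ℕ} (α β : Fin k → ℤ) (z : ℕ) : ℝ :=
  ∏ p ∈ (Icc 1 z).filter Nat.Prime, (1 - (omega α β p : ℝ) / p) / (1 - 1 / (p : ℝ)) ^ k

/-- The number of `n` with `y₁ < n ≤ y₂` such that `|α i n + β i|` is prime for every `i`. -/
def count {k : ℕ} (α β : Fin k → ℤ) (y₁ y₂ : ℕ) : ℕ :=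
  ((Ioc y₁ y₂).filter (fun n : ℕ => ∀ i, (α i * (n : ℤ) + β i).natAbs.Prime)).card

/-- The polynomials `α i x + β i` are not constant, no two of them are equal up to sign, and their product
has no fixed prime divisor. -/
def Admissible {k : ℕ} (α β : Fin k → ℤ) : Prop :=
  (∀ i, α i ≠ 0) ∧
  (∀ i j, i ≠ j → ¬ (α i = α j ∧ β i = β j) ∧ ¬ (α i = -α j ∧ β i = -β j)) ∧
  (∀ p : ℕ, p.Prime → ∃ n : ℤ, ¬ (p : ℤ) ∣ ∏ i, (α i * n + β i))

/-- For all slopes `|α i| ≤ log ^ D N` for which the system `F` of the `α i x + β i` is admissible, the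
product `C_F` converges to a positive number `c`, and for all `y₁ < y₂ ≤ B N` with
`y₂ - y₁ ≥ N / log ^ A N` the number of `n` with `y₁ < n ≤ y₂` such that all `|α i n + β i|` are prime agrees
with `c (y₂ - y₁) / log ^ k N` up to a relative error of at most `ε`. -/
def Holds (ε : ℝ) (A B D N : ℕ) {k : ℕ} (β : Fin k → ℤ) : Prop :=
  ∀ α : Fin k → ℤ, (∀ i, |(α i : ℝ)| ≤ Real.log N ^ D) → Admissible α β →
    ∃ c : ℝ, 0 < c ∧ Tendsto (eulerProd α β) atTop (𝓝 c) ∧
      ∀ y₁ y₂ : ℕ, y₁ < y₂ → y₂ ≤ B * N → (N : ℝ) / Real.log N ^ A ≤ (y₂ : ℝ) - y₁ →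
        |(count α β y₁ y₂ : ℝ) - c * ((y₂ : ℝ) - y₁) / Real.log N ^ k| ≤
          ε * (c * ((y₂ : ℝ) - y₁) / Real.log N ^ k)

/-- The additive energy of order `h` of a finite family of integers `v j`: the number of solutions of
`v (a 1) + ... + v (a h) = v (b 1) + ... + v (b h)`. -/
noncomputable def energy (h : ℕ) {ι : Type} [Fintype ι] (v : ι → ℤ) : ℕ :=
  Nat.card {q : (Fin h → ι) × (Fin h → ι) // ∑ j, v (q.1 j) = ∑ j, v (q.2 j)}

/-- The number of representations of `t` as `v (a 1) + ... + v (a h)`. -/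
noncomputable def reps (h : ℕ) {ι : Type} [Fintype ι] (v : ι → ℤ) (t : ℤ) : ℕ :=
  Nat.card {a : Fin h → ι // ∑ j, v (a j) = t}

open Classical in
/-- The number of the vectors `(v 1 (q 1), ..., v k (q k))`, `q i ∈ ι i`, of constant terms for which `Holds`
fails. -/
noncomputable def exceptions (ε : ℝ) (A B D N : ℕ) {k : ℕ} {ι : Fin k → Type} [∀ i, Fintype (ι i)]
    (v : ∀ i, ι i → ℤ) : ℕ :=
  (univ.filter (fun q : ∀ i, ι i => ¬ Holds ε A B D N (fun i => v i (q i)))).card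

open Pool.Agent.TH935.TF

lemma dvd_prod {k : ℕ} (α β : Fin k → ℤ) (p : ℕ) (hp : p.Prime) (n : ℤ) :
    (p : ℤ) ∣ ∏ i, (α i * n + β i) ↔ ∃ i, (p : ℤ) ∣ α i * n + β i := by
  have h := (Nat.prime_iff_prime_int.1 hp).dvd_finsetProd_iff (S := univ) (fun i => α i * n + β i)
  simpa using h

lemma omega_eq {k : ℕ} (α β : Fin k → ℤ) (p : ℕ) (hp : p.Prime) : omega α β p = om α β p := by
  unfold omega om
  congr 1
  apply filter_congr
  intro n _
  exact dvd_prod α β p hp n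

lemma euler_eq {k : ℕ} (α β : Fin k → ℤ) : eulerProd α β = fun z => Gz (om α β) k z := by
  funext z
  unfold eulerProd Gz Fq Pool.Agent.H373R2.T7.pz
  apply prod_congr rfl
  intro p hp
  rw [omega_eq α β p (mem_filter.1 hp).2]

lemma adm_of {k : ℕ} (α β : Fin k → ℤ) (h : Admissible α β) : Adm α β := by
  intro p hp
  obtain ⟨n, hn⟩ := h.2.2 p hp
  refine ⟨n, fun i hi => hn ?_⟩
  exact (dvd_prod α β p hp n).2 ⟨i, hi⟩

lemma holds_of (ε : ℝ) (A B D N : ℕ) {k : ℕ} (β : Fin k → ℤ)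
    (h : HW (fun α : Fin k → ℤ => α) (fun β : Fin k → ℤ => β) ε A B D N β) : Holds ε A B D N β := by
  intro α hαL hadm
  obtain ⟨S, hS0, hSt, hS⟩ := h α hadm.1 (fun i => by rw [Nat.cast_natAbs, Int.cast_abs]; exact hαL i) (adm_of α β hadm) hadm.2.1
  refine ⟨S, hS0, by rw [euler_eq]; exact hSt, fun y₁ y₂ h12 hy2 hΔ => ?_⟩
  exact hS y₁ y₂ h12.le hy2 hΔ

theorem first (k h A B C D U : ℕ) (hk : 1 ≤ k) (ε : ℝ) (hε : 0 < ε) :
    ∃ N₀ : ℕ, ∀ N : ℕ, N₀ ≤ N → ∀ (ι : Fin k → Type) [∀ i, Fintype (ι i)] (v : ∀ i, ι i → ℤ),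
      (∀ i j, |v i j| ≤ B * N) →
      (∀ i, (energy h (v i) : ℝ) * N ≤ Real.log N ^ C * (Fintype.card (ι i) : ℝ) ^ (2 * h)) →
      (exceptions ε A B D N v : ℝ) ≤ (∏ i, (Fintype.card (ι i) : ℝ)) / Real.log N ^ U := by
  classical
  obtain ⟨N₀, h0⟩ := transferP (k := k) h B C U (fun N β => Holds ε A B D N β) (by
    obtain ⟨N₀, h1⟩ := fam_sys (sys_one k hk) hk h A B C D U ε hε
    refine ⟨N₀, fun N hN x s hs hE 𝒮 hSx hS => h1 N hN x s hs hE 𝒮 hSx fun q hq hG => hS q hq ?_⟩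
    exact holds_of ε A B D N _ hG)
  refine ⟨N₀, fun N hN ι _ v hv hE => ?_⟩
  unfold exceptions
  refine h0 N hN ι v hv hE _ ?_
  intro q hq
  rw [mem_filter] at hq
  exact hq.2

/-- Let `k ≥ 1`, `h`, `A`, `B`, `C`, `D`, `U` and `ε > 0` be fixed, and let `N` be large. For `i = 1, ..., k`
let `v i j`, `j ∈ ι i`, be an arbitrary finite family of integers with `|v i j| ≤ B N`.

* Suppose that for every `i` the additive energy of order `h` of the `i`-th family is at most `log ^ C N`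
  times `(#ι i) ^ (2 h) / N` (up to the power of the logarithm this is the least possible energy of a family
  with members in `[-B N, B N]`, and the family may have as few as `N ^ (1 / h)` members). Then for all
  vectors `β` of constant terms, `β i` from the `i`-th family, with at most `(∏ #ι i) / log ^ U N` exceptions,
  the following holds simultaneously for all slopes `|α i| ≤ log ^ D N` such that the system `F` of the linear
  polynomials `α i x + β i` is admissible, and for all windows `y₁ < n ≤ y₂` with `y₂ ≤ B N` and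
  `y₂ - y₁ ≥ N / log ^ A N`: the window contains `(1 + O(ε)) C_F (y₂ - y₁) / log ^ k N` integers `n` such
  that `|α i n + β i|` is prime for all `i`.
* In particular this holds if for every `i` no integer has more than `log ^ C N` representations as a sum of
  `h` members of the `i`-th family, and `(#ι i) ^ h ≥ N / log ^ C N`. -/
theorem result (k h A B C D U : ℕ) (hk : 1 ≤ k) (ε : ℝ) (hε : 0 < ε) :
    (∃ N₀ : ℕ, ∀ N : ℕ, N₀ ≤ N → ∀ (ι : Fin k → Type) [∀ i, Fintype (ι i)] (v : ∀ i, ι i → ℤ),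
      (∀ i j, |v i j| ≤ B * N) →
      (∀ i, (energy h (v i) : ℝ) * N ≤ Real.log N ^ C * (Fintype.card (ι i) : ℝ) ^ (2 * h)) →
      (exceptions ε A B D N v : ℝ) ≤ (∏ i, (Fintype.card (ι i) : ℝ)) / Real.log N ^ U) ∧
    (∃ N₀ : ℕ, ∀ N : ℕ, N₀ ≤ N → ∀ (ι : Fin k → Type) [∀ i, Fintype (ι i)] (v : ∀ i, ι i → ℤ),
      (∀ i j, |v i j| ≤ B * N) →
      (∀ i t, (reps h (v i) t : ℝ) ≤ Real.log N ^ C) →
      (∀ i, (N : ℝ) ≤ Real.log N ^ C * (Fintype.card (ι i) : ℝ) ^ h) →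
      (exceptions ε A B D N v : ℝ) ≤ (∏ i, (Fintype.card (ι i) : ℝ)) / Real.log N ^ U) := by
  refine ⟨first k h A B C D U hk ε hε, ?_⟩
  obtain ⟨N₀, h0⟩ := first k h A B (2 * C) D U hk ε hε
  obtain ⟨N₁, h1⟩ := Pool.Agent.H373R2.T7.ev_L' 1
  refine ⟨N₀ + N₁, fun N hN ι _ v hv hJ hx => ?_⟩
  apply h0 N (by omega) ι v hv
  have hL := h1 N (by omega)
  have hL0 : 0 ≤ Real.log N := by linarith
  intro i
  have h2 : (energy h (v i) : ℝ) ≤ (Fintype.card (ι i) : ℝ) ^ h * Real.log N ^ C :=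
    Pool.Agent.TH935.GF.En_le h (v i) _ (hJ i)
  calc (energy h (v i) : ℝ) * N ≤ ((Fintype.card (ι i) : ℝ) ^ h * Real.log N ^ C) * (Real.log N ^ C * (Fintype.card (ι i) : ℝ) ^ h) :=
        mul_le_mul h2 (hx i) (Nat.cast_nonneg _) (by positivity)
    _ = Real.log N ^ (2 * C) * (Fintype.card (ι i) : ℝ) ^ (2 * h) := by ring

end Pool.Agent.Results.MP_51e72e_nt.ThinFamilySystems
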